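import Pool.Agent.Helper76.Ell.Tree

/-!
Relative position of three edges of a tree: star or path.
-/

namespace Ell76

variable {V : Type*}

/-- Both ends of `f` lie on the `p`-side of the edge `pq`. -/
def OnSide (T : SimpleGraph V) (p q : V) (f : Sym2 V) : Prop := ∀ x ∈ f, Side T p q x

theorem exists_onSide {T : SimpleGraph V} (hT : T.IsTree) {e f : Sym2 V}
    (hf : f ∈ T.edgeSet) (hne : f ≠ e) : ∃ p q, e = s(p, q) ∧ OnSide T p q f := by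
  induction e using Sym2.ind with
  | _ a b =>
  induction f using Sym2.ind with
  | _ c d =>
  have hcd : T.Adj c d := hf
  rcases side_or hT.connected (a := a) (b := b) c with h | h
  · refine ⟨a, b, rfl, ?_⟩
    intro x hx
    rw [Sym2.mem_iff] at hx
    rcases hx with rfl | rfl
    · exact h
    · exact side_adj h hcd hne
  · refine ⟨b, a, Sym2.eq_swap, ?_⟩
    have hne' : s(c, d) ≠ s(b, a) := by rwa [Sym2.eq_swap (a := b)]
    intro x hx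
    rw [Sym2.mem_iff] at hx
    rcases hx with rfl | rfl
    · exact h
    · exact side_adj h hcd hne'

/-- Path relation: `e1 = a1 b1`, `e2 = u v`, `e3 = a3 b3`, in the order
`b1 - a1 .. u - v .. a3 - b3`. -/
structure PathRel (T : SimpleGraph V) (a1 b1 u v a3 b3 : V) : Prop where
  u1 : Side T a1 b1 u
  v1 : Side T a1 b1 v
  a31 : Side T a1 b1 a3
  b31 : Side T a1 b1 b3
  u3 : Side T a3 b3 u
  v3 : Side T a3 b3 v
  a13 : Side T a3 b3 a1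
  b13 : Side T a3 b3 b1
  a12 : Side T u v a1
  b12 : Side T u v b1
  a32 : Side T v u a3
  b32 : Side T v u b3

def PathEx (T : SimpleGraph V) (e1 e2 e3 : Sym2 V) : Prop :=
  ∃ a1 b1 u v a3 b3, e1 = s(a1, b1) ∧ e2 = s(u, v) ∧ e3 = s(a3, b3) ∧
    PathRel T a1 b1 u v a3 b3

theorem path_of_middle {T : SimpleGraph V} (hT : T.IsTree) {e1 e3 : Sym2 V} {u v : V}
    (he1 : e1 ∈ T.edgeSet) (he2 : s(u, v) ∈ T.edgeSet) (he3 : e3 ∈ T.edgeSet)
    (h12 : e1 ≠ s(u, v)) (h32 : e3 ≠ s(u, v))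
    (h1 : OnSide T u v e1) (h3 : OnSide T v u e3) : PathEx T e1 s(u, v) e3 := by
  obtain ⟨a1, b1, rfl, ho1⟩ := exists_onSide hT (e := e1) he2 (Ne.symm h12)
  obtain ⟨a3, b3, rfl, ho3⟩ := exists_onSide hT (e := e3) he2 (Ne.symm h32)
  have huv : T.Adj u v := he2
  have ha12 := h1 a1 (Sym2.mem_mk_left _ _)
  have hb12 := h1 b1 (Sym2.mem_mk_right _ _)
  have ha32 := h3 a3 (Sym2.mem_mk_left _ _)
  have hb32 := h3 b3 (Sym2.mem_mk_right _ _)
  have hu1 := ho1 u (Sym2.mem_mk_left _ _)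
  have hv1 := ho1 v (Sym2.mem_mk_right _ _)
  have hu3 := ho3 u (Sym2.mem_mk_left _ _)
  have hv3 := ho3 v (Sym2.mem_mk_right _ _)
  have k1 : ∀ y, Side T v u y → Side T a1 b1 y := fun y hy =>
    SimpleGraph.Reachable.trans hv1 (side_far hT.isAcyclic huv ha12 hb12 hy)
  have k3 : ∀ y, Side T u v y → Side T a3 b3 y := fun y hy =>
    SimpleGraph.Reachable.trans hu3 (side_far hT.isAcyclic huv.symm ha32 hb32 hy)
  exact ⟨a1, b1, u, v, a3, b3, rfl, rfl, rfl,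
    { u1 := hu1, v1 := hv1, a31 := k1 _ ha32, b31 := k1 _ hb32, u3 := hu3, v3 := hv3,
      a13 := k3 _ ha12, b13 := k3 _ hb12, a12 := ha12, b12 := hb12, a32 := ha32, b32 := hb32 }⟩

theorem classify {T : SimpleGraph V} (hT : T.IsTree) {e1 e2 e3 : Sym2 V}
    (h1 : e1 ∈ T.edgeSet) (h2 : e2 ∈ T.edgeSet) (h3 : e3 ∈ T.edgeSet)
    (h12 : e1 ≠ e2) (h13 : e1 ≠ e3) (h23 : e2 ≠ e3) :
    (∃ p1 q1 p2 q2 p3 q3, e1 = s(p1, q1) ∧ e2 = s(p2, q2) ∧ e3 = s(p3, q3) ∧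
      OnSide T p1 q1 e2 ∧ OnSide T p1 q1 e3 ∧ OnSide T p2 q2 e1 ∧ OnSide T p2 q2 e3 ∧
      OnSide T p3 q3 e1 ∧ OnSide T p3 q3 e2) ∨
    PathEx T e2 e1 e3 ∨ PathEx T e1 e2 e3 ∨ PathEx T e1 e3 e2 := by
  obtain ⟨p1, q1, E1, o12⟩ := exists_onSide hT (e := e1) h2 h12.symm
  obtain ⟨p1', q1', E1', o13⟩ := exists_onSide hT (e := e1) h3 h13.symm
  obtain ⟨p2, q2, E2, o21⟩ := exists_onSide hT (e := e2) h1 h12
  obtain ⟨p2', q2', E2', o23⟩ := exists_onSide hT (e := e2) h3 h23.symm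
  obtain ⟨p3, q3, E3, o31⟩ := exists_onSide hT (e := e3) h1 h13
  obtain ⟨p3', q3', E3', o32⟩ := exists_onSide hT (e := e3) h2 h23
  rw [E1, Sym2.eq_iff] at E1'
  rcases E1' with ⟨rfl, rfl⟩ | ⟨rfl, rfl⟩
  swap
  · right; left
    subst E1
    exact path_of_middle hT h2 h1 h3 h12.symm h13.symm o12 o13
  rw [E2, Sym2.eq_iff] at E2'
  rcases E2' with ⟨rfl, rfl⟩ | ⟨rfl, rfl⟩
  swap
  · right; right; left
    subst E2
    exact path_of_middle hT h1 h2 h3 h12 h23.symm o21 o23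
  rw [E3, Sym2.eq_iff] at E3'
  rcases E3' with ⟨rfl, rfl⟩ | ⟨rfl, rfl⟩
  swap
  · right; right; right
    subst E3
    exact path_of_middle hT h1 h3 h2 h13 h23 o31 o32
  exact Or.inl ⟨p1, q1, p2, q2, p3, q3, E1, E2, E3, o12, o13, o21, o23, o31, o32⟩

/-- two distinct edges -/
theorem classify2 {T : SimpleGraph V} (hT : T.IsTree) {e1 e2 : Sym2 V}
    (h1 : e1 ∈ T.edgeSet) (h2 : e2 ∈ T.edgeSet) (h12 : e1 ≠ e2) :
    ∃ p1 q1 p2 q2, e1 = s(p1, q1) ∧ e2 = s(p2, q2) ∧ OnSide T p1 q1 e2 ∧ OnSide T p2 q2 e1 := by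
  obtain ⟨p1, q1, E1, o12⟩ := exists_onSide hT (e := e1) h2 h12.symm
  obtain ⟨p2, q2, E2, o21⟩ := exists_onSide hT (e := e2) h1 h12
  exact ⟨p1, q1, p2, q2, E1, E2, o12, o21⟩

end Ell76
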