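import Mathlib

/-!
Definitions for the piercing ellipses problem of maximum spanning trees.
-/

namespace Ell76

/-- The Euclidean plane. -/
abbrev Plane := EuclideanSpace ℝ (Fin 2)

/-- The Euclidean length of an edge (an unordered pair of points of `P`). -/
noncomputable def edgeLength {P : Finset Plane} (e : Sym2 P) : ℝ :=
  Sym2.lift ⟨fun a b : P => dist (a : Plane) (b : Plane), fun _ _ => dist_comm _ _⟩ e

open Classical in
/-- The total length of the edges of a graph on the point set `P`. -/
noncomputable def weight {P : Finset Plane} (T : SimpleGraph P) : ℝ :=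
  ∑ e ∈ Finset.univ.filter (fun e : Sym2 P => e ∈ T.edgeSet), edgeLength e

/-- `T` is a maximum-weight spanning tree of the complete graph on the point set `P`. -/
def IsMaxSpanningTree {P : Finset Plane} (T : SimpleGraph P) : Prop :=
  T.IsTree ∧ ∀ T' : SimpleGraph P, T'.IsTree → weight T' ≤ weight T

/-- `α` is admissible: for every finite set `P` of at least two points of the plane and every
maximum-weight spanning tree `T` of `P`, the closed ellipses `{x : |xa| + |xb| ≤ α |ab|}`,
`(a, b)` an edge of `T`, have a common point. -/
def Admissible (α : ℝ) : Prop :=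
  ∀ P : Finset Plane, 2 ≤ P.card → ∀ T : SimpleGraph P, IsMaxSpanningTree T →
    ∃ c : Plane, ∀ a b : P, T.Adj a b →
      dist c (a : Plane) + dist c (b : Plane) ≤ α * dist (a : Plane) (b : Plane)

/-- The optimal constant of the problem. -/
noncomputable def alphaStar : ℝ := sInf {α : ℝ | 1 ≤ α ∧ Admissible α}

end Ell76
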