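import Pool.Agent.Helper76.Ell.Lower

/-!
Final assembly from the two geometric statements.
-/

namespace Ell76

theorem isLeast_of (hs : Star3 ((1 + √3) / 2)) (hp : Path3 ((1 + √3) / 2)) :
    IsLeast {α : ℝ | 1 ≤ α ∧ Admissible α} ((1 + √3) / 2) := by
  have h3 : (1 : ℝ) ≤ √3 := by
    rw [show (1 : ℝ) = √1 by simp]
    exact Real.sqrt_le_sqrt (by norm_num)
  refine ⟨⟨by linarith, admissible_of hs hp⟩, fun α hα => lower_bound hα.2⟩

theorem alphaStar_of (hs : Star3 ((1 + √3) / 2)) (hp : Path3 ((1 + √3) / 2)) :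
    alphaStar = (1 + √3) / 2 := (isLeast_of hs hp).csInf_eq

end Ell76
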