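import Pool.Agent.Helper76.Ell.Defs
import Pool.Agent.Helper76.Ell.Classify

/-!
Reduction of the admissibility of a constant to three edges in star or path position.
-/

namespace Ell76

/-- Three edges in star position have ellipses with a common point. -/
def Star3 (α : ℝ) : Prop :=
  ∀ p q : Fin 3 → Plane, (∀ i, p i ≠ q i) →
    (∀ i j, i ≠ j → dist (q i) (p j) ≤ dist (p i) (q i) ∧ dist (q i) (q j) ≤ dist (p i) (q i)) →
    ∃ c : Plane, ∀ i, dist c (p i) + dist c (q i) ≤ α * dist (p i) (q i)

/-- Three edges in path position have ellipses with a common point. -/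
def Path3 (α : ℝ) : Prop :=
  ∀ a1 b1 u v a3 b3 : Plane, a1 ≠ b1 → u ≠ v → a3 ≠ b3 →
    dist b1 u ≤ dist a1 b1 → dist b1 v ≤ dist a1 b1 → dist b1 a3 ≤ dist a1 b1 →
    dist b1 b3 ≤ dist a1 b1 →
    dist b3 u ≤ dist a3 b3 → dist b3 v ≤ dist a3 b3 → dist b3 a1 ≤ dist a3 b3 →
    dist b3 b1 ≤ dist a3 b3 →
    dist a1 v ≤ dist u v → dist a1 a3 ≤ dist u v → dist a1 b3 ≤ dist u v →
    dist b1 v ≤ dist u v → dist b1 a3 ≤ dist u v → dist b1 b3 ≤ dist u v →
    dist u a3 ≤ dist u v → dist u b3 ≤ dist u v →
    ∃ c : Plane, dist c a1 + dist c b1 ≤ α * dist a1 b1 ∧ dist c u + dist c v ≤ α * dist u v ∧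
      dist c a3 + dist c b3 ≤ α * dist a3 b3

theorem weight_eq_wt {P : Finset Plane} (T : SimpleGraph P) : weight T = wt edgeLength T := by
  classical
  rw [wt_eq edgeLength T (Finset.univ.filter (fun e : Sym2 P => e ∈ T.edgeSet)) (by simp)]
  unfold weight
  apply Finset.sum_congr _ (fun _ _ => rfl)
  ext e
  simp

theorem edgeLength_mk {P : Finset Plane} (a b : P) :
    edgeLength s(a, b) = dist (a : Plane) (b : Plane) := rfl

theorem dist_le_of_sides {P : Finset Plane} {T : SimpleGraph P} (hT : IsMaxSpanningTree T)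
    {a b x y : P} (hab : T.Adj a b) (hx : Side T a b x) (hy : Side T b a y) :
    dist (x : Plane) (y : Plane) ≤ dist (a : Plane) (b : Plane) := by
  have h := exchange edgeLength hT.1
    (fun T' hT' => by rw [← weight_eq_wt, ← weight_eq_wt]; exact hT.2 T' hT') hab hx hy
  simpa [edgeLength_mk] using h

/-- far end of an edge against the points on the near side -/
theorem dist_far_le {P : Finset Plane} {T : SimpleGraph P} (hT : IsMaxSpanningTree T)
    {p q x : P} (hpq : T.Adj p q) (hx : Side T p q x) :
    dist (q : Plane) (x : Plane) ≤ dist (p : Plane) (q : Plane) := by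
  rw [dist_comm]
  exact dist_le_of_sides hT hpq hx (side_self _ _ _)

/-- The ellipse of an edge. -/
def ellE (α : ℝ) {P : Finset Plane} (e : Sym2 P) : Set Plane :=
  {c | ∀ a b : P, e = s(a, b) →
    dist c (a : Plane) + dist c (b : Plane) ≤ α * dist (a : Plane) (b : Plane)}

theorem mem_ellE {α : ℝ} {P : Finset Plane} {a b : P} {c : Plane}
    (h : dist c (a : Plane) + dist c (b : Plane) ≤ α * dist (a : Plane) (b : Plane)) :
    c ∈ ellE α s(a, b) := by
  intro a' b' he
  rw [Sym2.eq_iff] at he
  rcases he with ⟨rfl, rfl⟩ | ⟨rfl, rfl⟩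
  · exact h
  · rw [add_comm, dist_comm (b : Plane) (a : Plane)]
    exact h

theorem convex_ellE (α : ℝ) {P : Finset Plane} (e : Sym2 P) : Convex ℝ (ellE α e) := by
  have : ellE α e = ⋂ (a : P) (b : P) (_ : e = s(a, b)),
      {c : Plane | dist c (a : Plane) + dist c (b : Plane) ≤
        α * dist (a : Plane) (b : Plane)} := by
    ext c
    simp [ellE]
  rw [this]
  refine convex_iInter fun a => convex_iInter fun b => convex_iInter fun _ => ?_
  have h1 : ConvexOn ℝ Set.univ (fun c : Plane => dist c (a : Plane)) :=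
    convexOn_univ_dist _
  have h2 : ConvexOn ℝ Set.univ (fun c : Plane => dist c (b : Plane)) :=
    convexOn_univ_dist _
  have h3 := (h1.add h2).convex_le (α * dist (a : Plane) (b : Plane))
  simpa using h3

theorem coe_ne {P : Finset Plane} {T : SimpleGraph P} {a b : P} (h : T.Adj a b) :
    (a : Plane) ≠ (b : Plane) := fun h' => h.ne (Subtype.ext h')

theorem path_point {α : ℝ} (hp : Path3 α) {P : Finset Plane} {T : SimpleGraph P}
    (hT : IsMaxSpanningTree T) {e1 e2 e3 : Sym2 P} (h1 : e1 ∈ T.edgeSet) (h2 : e2 ∈ T.edgeSet)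
    (h3 : e3 ∈ T.edgeSet) (h : PathEx T e1 e2 e3) :
    ∃ c, c ∈ ellE α e1 ∧ c ∈ ellE α e2 ∧ c ∈ ellE α e3 := by
  obtain ⟨a1, b1, u, v, a3, b3, rfl, rfl, rfl, r⟩ := h
  have k1 : T.Adj a1 b1 := h1
  have k2 : T.Adj u v := h2
  have k3 : T.Adj a3 b3 := h3
  obtain ⟨c, c1, c2, c3⟩ := hp a1 b1 u v a3 b3 (coe_ne k1) (coe_ne k2) (coe_ne k3)
    (dist_far_le hT k1 r.u1) (dist_far_le hT k1 r.v1) (dist_far_le hT k1 r.a31)
    (dist_far_le hT k1 r.b31)
    (dist_far_le hT k3 r.u3) (dist_far_le hT k3 r.v3) (dist_far_le hT k3 r.a13)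
    (dist_far_le hT k3 r.b13)
    (dist_le_of_sides hT k2 r.a12 (side_self _ _ _)) (dist_le_of_sides hT k2 r.a12 r.a32)
    (dist_le_of_sides hT k2 r.a12 r.b32)
    (dist_le_of_sides hT k2 r.b12 (side_self _ _ _)) (dist_le_of_sides hT k2 r.b12 r.a32)
    (dist_le_of_sides hT k2 r.b12 r.b32)
    (dist_le_of_sides hT k2 (side_self _ _ _) r.a32)
    (dist_le_of_sides hT k2 (side_self _ _ _) r.b32)
  exact ⟨c, mem_ellE c1, mem_ellE c2, mem_ellE c3⟩

theorem star_point {α : ℝ} (hs : Star3 α) {P : Finset Plane} {T : SimpleGraph P}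
    (p q : Fin 3 → P) (hpq : ∀ i, T.Adj (p i) (q i))
    (hd : ∀ i j, i ≠ j → dist (q i : Plane) (p j) ≤ dist (p i : Plane) (q i) ∧
      dist (q i : Plane) (q j) ≤ dist (p i : Plane) (q i)) :
    ∃ c, ∀ i, c ∈ ellE α s(p i, q i) := by
  obtain ⟨c, hc⟩ := hs (fun i => (p i : Plane)) (fun i => (q i : Plane))
    (fun i => coe_ne (hpq i)) hd
  exact ⟨c, fun i => mem_ellE (hc i)⟩

theorem admissible_of {α : ℝ} (hs : Star3 α) (hp : Path3 α) : Admissible α := by
  classical
  intro P _ T hT
  have hfin : Module.finrank ℝ Plane = 2 := by simp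
  have key : (⋂ e ∈ Finset.univ.filter (fun e : Sym2 P => e ∈ T.edgeSet),
      ellE α e).Nonempty := by
    apply Convex.helly_theorem' (𝕜 := ℝ)
    · intro e _
      exact convex_ellE α e
    · intro I hI hcard
      rw [hfin] at hcard
      have hIm : ∀ e ∈ I, e ∈ T.edgeSet := by
        intro e he
        have := hI he
        simpa using this
      have hc : I.card = 0 ∨ I.card = 1 ∨ I.card = 2 ∨ I.card = 3 := by omega
      rcases hc with hc | hc | hc | hc
      · rw [Finset.card_eq_zero] at hc
        subst hc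
        simp
      · rw [Finset.card_eq_one] at hc
        obtain ⟨e, rfl⟩ := hc
        have he := hIm e (by simp)
        induction e using Sym2.ind with
        | _ a b =>
        have hab : T.Adj a b := he
        obtain ⟨c, hc⟩ := star_point hs (T := T) (fun _ => a) (fun _ => b) (fun _ => hab)
          (fun i j _ => ⟨by rw [dist_comm], by simp⟩)
        exact ⟨c, by simpa using hc 0⟩
      · rw [Finset.card_eq_two] at hc
        obtain ⟨e1, e2, h12, rfl⟩ := hc
        have h1 := hIm e1 (by simp)
        have h2 := hIm e2 (by simp)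
        obtain ⟨p1, q1, p2, q2, rfl, rfl, o12, o21⟩ := classify2 hT.1 h1 h2 h12
        have k1 : T.Adj p1 q1 := h1
        have k2 : T.Adj p2 q2 := h2
        have A1 := dist_far_le hT k1 (o12 p2 (Sym2.mem_mk_left _ _))
        have A2 := dist_far_le hT k1 (o12 q2 (Sym2.mem_mk_right _ _))
        have A3 := dist_far_le hT k2 (o21 p1 (Sym2.mem_mk_left _ _))
        have A4 := dist_far_le hT k2 (o21 q1 (Sym2.mem_mk_right _ _))
        have B2 : dist (q2 : Plane) (p2 : Plane) ≤ dist (p2 : Plane) (q2 : Plane) := by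
          rw [dist_comm]
        have C2 : dist (q2 : Plane) (q2 : Plane) ≤ dist (p2 : Plane) (q2 : Plane) := by simp
        obtain ⟨c, hc⟩ := star_point hs (T := T) ![p1, p2, p2] ![q1, q2, q2]
          (by
            intro i
            fin_cases i
            · exact k1
            · exact k2
            · exact k2)
          (by
            intro i j hij
            fin_cases i <;> fin_cases j <;> first | exact absurd rfl hij | skip
            · exact ⟨A1, A2⟩
            · exact ⟨A1, A2⟩
            · exact ⟨A3, A4⟩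
            · exact ⟨B2, C2⟩
            · exact ⟨A3, A4⟩
            · exact ⟨B2, C2⟩)
        refine ⟨c, ?_⟩
        have c0 := hc 0
        have c1 := hc 1
        simp only [Finset.mem_insert, Finset.mem_singleton, Set.iInter_iInter_eq_or_left,
          Set.iInter_iInter_eq_left]
        exact ⟨c0, c1⟩
      · rw [Finset.card_eq_three] at hc
        obtain ⟨e1, e2, e3, h12, h13, h23, rfl⟩ := hc
        have h1 := hIm e1 (by simp)
        have h2 := hIm e2 (by simp)
        have h3 := hIm e3 (by simp)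
        have goal_of : (∃ c, c ∈ ellE α e1 ∧ c ∈ ellE α e2 ∧ c ∈ ellE α e3) →
            (⋂ e ∈ ({e1, e2, e3} : Finset (Sym2 P)), ellE α e).Nonempty := by
          rintro ⟨c, c1, c2, c3⟩
          refine ⟨c, ?_⟩
          simp only [Finset.mem_insert, Finset.mem_singleton, Set.iInter_iInter_eq_or_left,
            Set.iInter_iInter_eq_left]
          exact ⟨c1, c2, c3⟩
        apply goal_of
        rcases classify hT.1 h1 h2 h3 h12 h13 h23 with h | h | h | h
        · obtain ⟨p1, q1, p2, q2, p3, q3, rfl, rfl, rfl, o12, o13, o21, o23, o31, o32⟩ := h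
          have k1 : T.Adj p1 q1 := h1
          have k2 : T.Adj p2 q2 := h2
          have k3 : T.Adj p3 q3 := h3
          have A1 := dist_far_le hT k1 (o12 p2 (Sym2.mem_mk_left _ _))
          have A2 := dist_far_le hT k1 (o12 q2 (Sym2.mem_mk_right _ _))
          have A3 := dist_far_le hT k1 (o13 p3 (Sym2.mem_mk_left _ _))
          have A4 := dist_far_le hT k1 (o13 q3 (Sym2.mem_mk_right _ _))
          have B1 := dist_far_le hT k2 (o21 p1 (Sym2.mem_mk_left _ _))
          have B2 := dist_far_le hT k2 (o21 q1 (Sym2.mem_mk_right _ _))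
          have B3 := dist_far_le hT k2 (o23 p3 (Sym2.mem_mk_left _ _))
          have B4 := dist_far_le hT k2 (o23 q3 (Sym2.mem_mk_right _ _))
          have C1 := dist_far_le hT k3 (o31 p1 (Sym2.mem_mk_left _ _))
          have C2 := dist_far_le hT k3 (o31 q1 (Sym2.mem_mk_right _ _))
          have C3 := dist_far_le hT k3 (o32 p2 (Sym2.mem_mk_left _ _))
          have C4 := dist_far_le hT k3 (o32 q2 (Sym2.mem_mk_right _ _))
          obtain ⟨c, hc⟩ := star_point hs (T := T) ![p1, p2, p3] ![q1, q2, q3]
            (by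
              intro i
              fin_cases i
              · exact k1
              · exact k2
              · exact k3)
            (by
              intro i j hij
              fin_cases i <;> fin_cases j <;> first | exact absurd rfl hij | skip
              · exact ⟨A1, A2⟩
              · exact ⟨A3, A4⟩
              · exact ⟨B1, B2⟩
              · exact ⟨B3, B4⟩
              · exact ⟨C1, C2⟩
              · exact ⟨C3, C4⟩)
          exact ⟨c, hc 0, hc 1, hc 2⟩
        · obtain ⟨c, c1, c2, c3⟩ := path_point hp hT h2 h1 h3 h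
          exact ⟨c, c2, c1, c3⟩
        · exact path_point hp hT h1 h2 h3 h
        · obtain ⟨c, c1, c2, c3⟩ := path_point hp hT h1 h3 h2 h
          exact ⟨c, c1, c3, c2⟩
  obtain ⟨c, hc⟩ := key
  refine ⟨c, fun a b hab => ?_⟩
  rw [Set.mem_iInter₂] at hc
  have := hc s(a, b) (by simp [hab])
  exact this a b rfl

end Ell76
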