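import Pool.Agent.Helper76.Ell.Defs
import Pool.Agent.Helper76.Ell.Helly

/-!
The lower bound: the rhombus made of two equilateral triangles.
-/

namespace Ell76

noncomputable def rA : Plane := !₂[-(√3 / 2), 0]
noncomputable def rB : Plane := !₂[0, 1 / 2]
noncomputable def rC : Plane := !₂[0, -(1 / 2)]
noncomputable def rD : Plane := !₂[√3 / 2, 0]

theorem dist_two (x y x' y' : ℝ) :
    dist (!₂[x, y] : Plane) !₂[x', y'] = √((x - x') ^ 2 + (y - y') ^ 2) := by
  rw [EuclideanSpace.dist_eq]
  simp [Fin.sum_univ_two, Real.dist_eq, sq_abs]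

theorem dAB : dist rA rB = 1 := by
  unfold rA rB
  rw [dist_two]
  have : (-(√3 / 2) - 0) ^ 2 + (0 - 1 / 2 : ℝ) ^ 2 = 1 := by
    have := Real.sq_sqrt (show (0 : ℝ) ≤ 3 by norm_num)
    nlinarith
  rw [this, Real.sqrt_one]

theorem dAC : dist rA rC = 1 := by
  unfold rA rC
  rw [dist_two]
  have : (-(√3 / 2) - 0) ^ 2 + (0 - -(1 / 2) : ℝ) ^ 2 = 1 := by
    have := Real.sq_sqrt (show (0 : ℝ) ≤ 3 by norm_num)
    nlinarith
  rw [this, Real.sqrt_one]

theorem dDB : dist rD rB = 1 := by
  unfold rD rB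
  rw [dist_two]
  have : ((√3 / 2) - 0) ^ 2 + (0 - 1 / 2 : ℝ) ^ 2 = 1 := by
    have := Real.sq_sqrt (show (0 : ℝ) ≤ 3 by norm_num)
    nlinarith
  rw [this, Real.sqrt_one]

theorem dDC : dist rD rC = 1 := by
  unfold rD rC
  rw [dist_two]
  have : ((√3 / 2) - 0) ^ 2 + (0 - -(1 / 2) : ℝ) ^ 2 = 1 := by
    have := Real.sq_sqrt (show (0 : ℝ) ≤ 3 by norm_num)
    nlinarith
  rw [this, Real.sqrt_one]

theorem dBC : dist rB rC = 1 := by
  unfold rB rC
  rw [dist_two]
  have : ((0 : ℝ) - 0) ^ 2 + (1 / 2 - -(1 / 2) : ℝ) ^ 2 = 1 := by norm_num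
  rw [this, Real.sqrt_one]

theorem dAD : dist rA rD = √3 := by
  unfold rA rD
  rw [dist_two]
  have : (-(√3 / 2) - √3 / 2) ^ 2 + (0 - 0 : ℝ) ^ 2 = √3 ^ 2 := by ring
  rw [this, Real.sqrt_sq (Real.sqrt_nonneg _)]

theorem nAB : rA ≠ rB := fun h => by have := dAB; rw [h, dist_self] at this; norm_num at this
theorem nAC : rA ≠ rC := fun h => by have := dAC; rw [h, dist_self] at this; norm_num at this
theorem nDB : rD ≠ rB := fun h => by have := dDB; rw [h, dist_self] at this; norm_num at this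
theorem nDC : rD ≠ rC := fun h => by have := dDC; rw [h, dist_self] at this; norm_num at this
theorem nBC : rB ≠ rC := fun h => by have := dBC; rw [h, dist_self] at this; norm_num at this
theorem nAD : rA ≠ rD := fun h => by
  have := dAD
  rw [h, dist_self] at this
  have h3 : (0 : ℝ) < √3 := Real.sqrt_pos.mpr (by norm_num)
  linarith

open Classical in
/-- the four vertices of the rhombus -/
noncomputable def rP : Finset Plane := {rA, rB, rC, rD}

noncomputable def vA : rP := ⟨rA, by simp [rP]⟩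
noncomputable def vB : rP := ⟨rB, by simp [rP]⟩
noncomputable def vC : rP := ⟨rC, by simp [rP]⟩
noncomputable def vD : rP := ⟨rD, by simp [rP]⟩

theorem cases_v (x : rP) : x = vA ∨ x = vB ∨ x = vC ∨ x = vD := by
  obtain ⟨x, hx⟩ := x
  simp only [rP, Finset.mem_insert, Finset.mem_singleton] at hx
  rcases hx with rfl | rfl | rfl | rfl
  · exact Or.inl rfl
  · exact Or.inr (Or.inl rfl)
  · exact Or.inr (Or.inr (Or.inl rfl))
  · exact Or.inr (Or.inr (Or.inr rfl))

theorem card_rP : rP.card = 4 := by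
  classical
  unfold rP
  have h1 : rA ∉ ({rB, rC, rD} : Finset Plane) := by simp [nAB, nAC, nAD]
  have h2 : rB ∉ ({rC, rD} : Finset Plane) := by simp [nBC, nDB.symm]
  have h3 : rC ∉ ({rD} : Finset Plane) := by simp [nDC.symm]
  rw [Finset.card_insert_of_notMem h1, Finset.card_insert_of_notMem h2,
    Finset.card_insert_of_notMem h3, Finset.card_singleton]

theorem mAB : vA ≠ vB := fun h => nAB (congrArg Subtype.val h)
theorem mAC : vA ≠ vC := fun h => nAC (congrArg Subtype.val h)
theorem mAD : vA ≠ vD := fun h => nAD (congrArg Subtype.val h)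
theorem mBC : vB ≠ vC := fun h => nBC (congrArg Subtype.val h)
theorem mBD : vB ≠ vD := fun h => nDB (congrArg Subtype.val h).symm
theorem mCD : vC ≠ vD := fun h => nDC (congrArg Subtype.val h).symm

/-- the spanning tree `B - A - D - C` -/
noncomputable def rT : SimpleGraph rP := SimpleGraph.fromEdgeSet {s(vA, vB), s(vA, vD), s(vC, vD)}

theorem adjAB : rT.Adj vA vB := by
  rw [rT, SimpleGraph.fromEdgeSet_adj]
  exact ⟨by simp, mAB⟩
theorem adjAD : rT.Adj vA vD := by
  rw [rT, SimpleGraph.fromEdgeSet_adj]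
  exact ⟨by simp, mAD⟩
theorem adjCD : rT.Adj vC vD := by
  rw [rT, SimpleGraph.fromEdgeSet_adj]
  exact ⟨by simp, mCD⟩

open Classical in
noncomputable def rF : Finset (Sym2 rP) := {s(vA, vB), s(vA, vD), s(vC, vD)}

theorem mem_rF (e : Sym2 rP) : e ∈ rF ↔ e ∈ rT.edgeSet := by
  rw [rT, SimpleGraph.edgeSet_fromEdgeSet, rF]
  simp only [Finset.mem_insert, Finset.mem_singleton, Set.mem_sdiff, Set.mem_insert_iff,
    Set.mem_singleton_iff]
  constructor
  · rintro (rfl | rfl | rfl)
    · exact ⟨by simp, by simp [mAB]⟩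
    · exact ⟨by simp, by simp [mAD]⟩
    · exact ⟨by simp, by simp [mCD]⟩
  · exact fun h => h.1

theorem card_rF : rF.card = 3 := by
  classical
  unfold rF
  have h1 : s(vA, vB) ∉ ({s(vA, vD), s(vC, vD)} : Finset (Sym2 rP)) := by
    simp [mBD, mAC, mAD, mBC]
  have h2 : s(vA, vD) ∉ ({s(vC, vD)} : Finset (Sym2 rP)) := by
    simp [mAC, mAD]
  rw [Finset.card_insert_of_notMem h1, Finset.card_insert_of_notMem h2, Finset.card_singleton]

theorem rT_tree : rT.IsTree := by
  rw [SimpleGraph.isTree_iff_connected_and_card]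
  constructor
  · have : Nonempty rP := ⟨vA⟩
    have h : ∀ x, rT.Reachable vA x := by
      intro x
      rcases cases_v x with rfl | rfl | rfl | rfl
      · exact SimpleGraph.Reachable.refl _
      · exact adjAB.reachable
      · exact adjAD.reachable.trans adjCD.symm.reachable
      · exact adjAD.reachable
    exact ⟨fun x y => (h x).symm.trans (h y)⟩
  · have h1 : rT.edgeSet = (rF : Set (Sym2 rP)) := by
      ext e
      rw [Finset.mem_coe, mem_rF]
    rw [h1, Nat.card_eq_fintype_card, Nat.card_eq_fintype_card]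
    simp [card_rF, card_rP]

theorem len_le (e : Sym2 rP) :
    edgeLength e ≤ 1 + (if e = s(vA, vD) then √3 - 1 else 0) := by
  classical
  induction e using Sym2.ind with
  | _ x y =>
  rw [edgeLength_mk]
  have h3 : (1 : ℝ) ≤ √3 := by
    rw [show (1 : ℝ) = √1 by simp]
    exact Real.sqrt_le_sqrt (by norm_num)
  have gen : dist (x : Plane) (y : Plane) ≤ 1 →
      dist (x : Plane) (y : Plane) ≤ 1 + (if s(x, y) = s(vA, vD) then √3 - 1 else 0) := by
    intro h
    split_ifs <;> linarith
  have hAD : dist rA rD ≤ 1 + (if s(vA, vD) = s(vA, vD) then √3 - 1 else 0) := by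
    rw [if_pos rfl, dAD]
    linarith
  have hDA : dist rD rA ≤ 1 + (if s(vD, vA) = s(vA, vD) then √3 - 1 else 0) := by
    rw [if_pos Sym2.eq_swap, dist_comm, dAD]
    linarith
  rcases cases_v x with rfl | rfl | rfl | rfl <;> rcases cases_v y with rfl | rfl | rfl | rfl
  · exact gen (by simp)
  · exact gen dAB.le
  · exact gen dAC.le
  · exact hAD
  · exact gen (by rw [dist_comm]; exact dAB.le)
  · exact gen (by simp)
  · exact gen dBC.le
  · exact gen (by rw [dist_comm]; exact dDB.le)
  · exact gen (by rw [dist_comm]; exact dAC.le)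
  · exact gen (by rw [dist_comm]; exact dBC.le)
  · exact gen (by simp)
  · exact gen (by rw [dist_comm]; exact dDC.le)
  · exact hDA
  · exact gen dDB.le
  · exact gen dDC.le
  · exact gen (by simp)

theorem weight_rT : weight rT = 2 + √3 := by
  classical
  rw [weight_eq_wt, wt_eq edgeLength rT rF mem_rF]
  unfold rF
  have h1 : s(vA, vB) ∉ ({s(vA, vD), s(vC, vD)} : Finset (Sym2 rP)) := by
    simp [mBD, mAC, mAD, mBC]
  have h2 : s(vA, vD) ∉ ({s(vC, vD)} : Finset (Sym2 rP)) := by
    simp [mAC, mAD]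
  rw [Finset.sum_insert h1, Finset.sum_insert h2, Finset.sum_singleton,
    edgeLength_mk, edgeLength_mk, edgeLength_mk]
  have e1 : dist (vA : Plane) (vB : Plane) = 1 := dAB
  have e2 : dist (vA : Plane) (vD : Plane) = √3 := dAD
  have e3 : dist (vC : Plane) (vD : Plane) = 1 := by rw [dist_comm]; exact dDC
  rw [e1, e2, e3]
  ring

theorem weight_le (T' : SimpleGraph rP) (hT' : T'.IsTree) : weight T' ≤ 2 + √3 := by
  classical
  rw [weight_eq_wt]
  set F := Finset.univ.filter (fun e : Sym2 rP => e ∈ T'.edgeSet) with hF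
  have hFm : ∀ e, e ∈ F ↔ e ∈ T'.edgeSet := by intro e; simp [hF]
  rw [wt_eq edgeLength T' F hFm]
  have hcard : F.card = 3 := by
    have h := (SimpleGraph.isTree_iff_connected_and_card.mp hT').2
    have h1 : T'.edgeSet = (F : Set (Sym2 rP)) := by
      ext e
      rw [Finset.mem_coe, hFm]
    rw [h1, Nat.card_eq_fintype_card, Nat.card_eq_fintype_card] at h
    simp only [Finset.coe_sort_coe, Fintype.card_coe, card_rP] at h
    omega
  have h3 : (1 : ℝ) ≤ √3 := by
    rw [show (1 : ℝ) = √1 by simp]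
    exact Real.sqrt_le_sqrt (by norm_num)
  calc ∑ e ∈ F, edgeLength e ≤ ∑ e ∈ F, (1 + (if e = s(vA, vD) then √3 - 1 else 0)) :=
        Finset.sum_le_sum (fun e _ => len_le e)
    _ = 3 + ∑ e ∈ F, (if e = s(vA, vD) then √3 - 1 else 0) := by
        rw [Finset.sum_add_distrib]
        simp [hcard]
    _ ≤ 3 + (√3 - 1) := by
        rw [Finset.sum_ite_eq' F]
        split_ifs <;> linarith
    _ = 2 + √3 := by ring

theorem rT_max : IsMaxSpanningTree rT :=
  ⟨rT_tree, fun T' hT' => by rw [weight_rT]; exact weight_le T' hT'⟩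

/-- every admissible constant is at least `(1 + √3) / 2` -/
theorem lower_bound {α : ℝ} (h : Admissible α) : (1 + √3) / 2 ≤ α := by
  obtain ⟨c, hc⟩ := h rP (by rw [card_rP]; norm_num) rT rT_max
  have h1 := hc vA vB adjAB
  have h2 := hc vC vD adjCD
  have e1 : dist (vA : Plane) (vB : Plane) = 1 := dAB
  have e2 : dist (vA : Plane) (vD : Plane) = √3 := dAD
  have e3 : dist (vC : Plane) (vD : Plane) = 1 := by rw [dist_comm]; exact dDC
  have e4 : dist (vB : Plane) (vC : Plane) = 1 := dBC
  rw [e1] at h1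
  rw [e3] at h2
  have t1 : dist (vA : Plane) (vD : Plane) ≤ dist c (vA : Plane) + dist c (vD : Plane) := by
    rw [dist_comm c (vA : Plane)]
    exact dist_triangle _ _ _
  have t2 : dist (vB : Plane) (vC : Plane) ≤ dist c (vB : Plane) + dist c (vC : Plane) := by
    rw [dist_comm c (vB : Plane)]
    exact dist_triangle _ _ _
  rw [e2] at t1
  rw [e4] at t2
  linarith

end Ell76
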