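import Mathlib

/-!
Exchange property of maximum-weight spanning trees, and the relative position of three edges.
-/

namespace Ell76

variable {V : Type*}

/-- `Side T a b x`: after deleting the edge `ab` from `T`, the vertex `x` is still
connected to `a`. -/
def Side (T : SimpleGraph V) (a b x : V) : Prop := (T.deleteEdges {s(a, b)}).Reachable a x

theorem side_self (T : SimpleGraph V) (a b : V) : Side T a b a := SimpleGraph.Reachable.refl _

theorem not_both {T : SimpleGraph V} (hT : T.IsAcyclic) {a b x : V} (hab : T.Adj a b)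
    (h1 : Side T a b x) (h2 : Side T b a x) : False := by
  have hbr := (SimpleGraph.isAcyclic_iff_forall_adj_isBridge.mp hT) hab
  rw [SimpleGraph.isBridge_iff] at hbr
  unfold Side at h1 h2
  rw [Sym2.eq_swap] at h2
  exact hbr (h1.trans h2.symm)

theorem side_or {T : SimpleGraph V} (hT : T.Connected) {a b : V} (x : V) :
    Side T a b x ∨ Side T b a x := by
  classical
  have h := hT.preconnected a x
  rw [SimpleGraph.reachable_iff_reflTransGen] at h
  induction h with
  | refl => exact Or.inl (side_self T a b)
  | tail hxy hadj ih =>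
    rename_i y z
    by_cases he : s(y, z) = s(a, b)
    · rw [Sym2.eq_iff] at he
      rcases he with ⟨_, rfl⟩ | ⟨_, rfl⟩
      · exact Or.inr (side_self T _ _)
      · exact Or.inl (side_self T _ _)
    · have hz : (T.deleteEdges {s(a, b)}).Adj y z := by
        simp [SimpleGraph.deleteEdges_adj, hadj, he]
      rcases ih with ih | ih
      · exact Or.inl (ih.trans hz.reachable)
      · right
        unfold Side at *
        rw [Sym2.eq_swap] at ih ⊢
        exact ih.trans hz.reachable

/-- the sides are closed under edges other than `ab` -/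
theorem side_adj {T : SimpleGraph V} {a b x y : V} (hx : Side T a b x) (hxy : T.Adj x y)
    (hne : s(x, y) ≠ s(a, b)) : Side T a b y := by
  unfold Side at *
  refine hx.trans (SimpleGraph.Adj.reachable ?_)
  simp [SimpleGraph.deleteEdges_adj, hxy, hne]

/-- If the edge `cd` lies on the `u`-side of the edge `uv`, then the whole `v`-side of `uv` is
connected to `v` after deleting `cd`. -/
theorem side_far {T : SimpleGraph V} (hT : T.IsAcyclic) {u v c d y : V} (huv : T.Adj u v)
    (hc : Side T u v c) (hd : Side T u v d) (hy : Side T v u y) :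
    (T.deleteEdges {s(c, d)}).Reachable v y := by
  have h := hy
  unfold Side at h
  rw [SimpleGraph.reachable_iff_reflTransGen] at h
  induction h with
  | refl => exact SimpleGraph.Reachable.refl _
  | tail hxy hadj ih =>
    rename_i y z
    have hy' : Side T v u y := by
      unfold Side
      rw [SimpleGraph.reachable_iff_reflTransGen]
      exact hxy
    refine (ih hy').trans (SimpleGraph.Adj.reachable ?_)
    rw [SimpleGraph.deleteEdges_adj] at hadj ⊢
    refine ⟨hadj.1, ?_⟩
    intro hmem
    rw [Set.mem_singleton_iff, Sym2.eq_iff] at hmem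
    rcases hmem with ⟨rfl, _⟩ | ⟨rfl, _⟩
    · exact not_both hT huv hc hy'
    · exact not_both hT huv hd hy'

open Classical in
/-- total weight of a graph for a weight function on unordered pairs -/
noncomputable def wt [Fintype V] (w : Sym2 V → ℝ) (T : SimpleGraph V) : ℝ :=
  ∑ e ∈ Finset.univ.filter (fun e : Sym2 V => e ∈ T.edgeSet), w e

theorem wt_eq [Fintype V] (w : Sym2 V → ℝ) (T : SimpleGraph V) (s : Finset (Sym2 V))
    (hs : ∀ e, e ∈ s ↔ e ∈ T.edgeSet) : wt w T = ∑ e ∈ s, w e := by
  unfold wt
  apply Finset.sum_congr _ (fun _ _ => rfl)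
  ext e
  simp [hs]

/-- Exchange property of maximum-weight spanning trees. -/
theorem exchange [Fintype V] (w : Sym2 V → ℝ) {T : SimpleGraph V} (hT : T.IsTree)
    (hmax : ∀ T' : SimpleGraph V, T'.IsTree → wt w T' ≤ wt w T) {a b x y : V}
    (hab : T.Adj a b) (hx : Side T a b x) (hy : Side T b a y) : w s(x, y) ≤ w s(a, b) := by
  classical
  set T0 := T.deleteEdges {s(a, b)} with hT0
  have hyb : T0.Reachable b y := by
    have := hy
    unfold Side at this
    rwa [Sym2.eq_swap] at this
  have hxa : T0.Reachable a x := hx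
  have hac : T0.IsAcyclic := hT.isAcyclic.anti (SimpleGraph.deleteEdges_le _)
  have hnab : ¬ T0.Reachable a b := by
    have hbr := (SimpleGraph.isAcyclic_iff_forall_adj_isBridge.mp hT.isAcyclic) hab
    rwa [SimpleGraph.isBridge_iff] at hbr
  have hnxy : ¬ T0.Reachable x y := fun h => hnab ((hxa.trans h).trans hyb.symm)
  have hxy : x ≠ y := fun h => hnxy (h ▸ SimpleGraph.Reachable.refl _)
  set T' := T0 ⊔ SimpleGraph.edge x y with hT'
  have hle : T0 ≤ T' := le_sup_left
  have hadj : T'.Adj x y := by
    rw [hT', SimpleGraph.sup_adj]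
    right
    simp [SimpleGraph.edge_adj, hxy]
  have hac' : T'.IsAcyclic := hac.sup_edge_of_not_reachable hnxy
  have hab' : T'.Reachable a b :=
    ((hxa.mono hle).trans hadj.reachable).trans (hyb.mono hle).symm
  have hall : ∀ v, T'.Reachable a v := by
    intro v
    rcases side_or hT.connected (a := a) (b := b) v with h | h
    · exact SimpleGraph.Reachable.mono hle h
    · unfold Side at h
      rw [Sym2.eq_swap] at h
      exact hab'.trans (SimpleGraph.Reachable.mono hle h)
  have hconn : T'.Connected := by
    have : Nonempty V := ⟨a⟩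
    exact ⟨fun u v => (hall u).symm.trans (hall v)⟩
  have hw := hmax T' ⟨hconn, hac'⟩
  set F := Finset.univ.filter (fun e : Sym2 V => e ∈ T.edgeSet) with hF
  have hFm : ∀ e, e ∈ F ↔ e ∈ T.edgeSet := by intro e; simp [hF]
  have hset : ∀ e, e ∈ insert s(x, y) (F.erase s(a, b)) ↔ e ∈ T'.edgeSet := by
    intro e
    simp only [Finset.mem_insert, Finset.mem_erase, hFm]
    rw [hT', SimpleGraph.edgeSet_sup, Set.mem_union, hT0, SimpleGraph.edgeSet_deleteEdges,
      Set.mem_sdiff, Set.mem_singleton_iff, SimpleGraph.edgeSet_edge_of_ne hxy,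
      Set.mem_singleton_iff]
    tauto
  have hnot : s(x, y) ∉ F.erase s(a, b) := by
    intro h
    rw [Finset.mem_erase, hFm] at h
    apply hnxy
    apply SimpleGraph.Adj.reachable
    rw [hT0, SimpleGraph.deleteEdges_adj]
    exact ⟨h.2, fun h' => h.1 (Set.mem_singleton_iff.mp h')⟩
  have hmem : s(a, b) ∈ F := by
    rw [hFm]
    exact hab
  rw [wt_eq w T' _ hset, wt_eq w T F hFm, Finset.sum_insert hnot] at hw
  have h2 := Finset.add_sum_erase _ w hmem
  linarith

end Ell76
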